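import Pool.Agent.H.MP_0f7a95_an.A

set_option autoImplicit false

namespace Pool.Agent.H.MP_cfec29_an

open Complex Filter Set Metric
open scoped ComplexConjugate

lemma lowb {X : ℂ → ℂ} (hd : DifferentiableOn ℂ X (ball 0 1)) (h0 : ∀ u ∈ ball (0 : ℂ) 1, X u ≠ 0)
    {K : ℝ} (hK : ∀ u ∈ ball (0 : ℂ) 1, ‖X u‖ ≤ K / (1 - ‖u‖)) :
    ∃ C, 0 ≤ C ∧ ∀ u ∈ ball (0 : ℂ) 1, Real.exp (-(C / (1 - ‖u‖) ^ 2)) ≤ ‖X u‖ := by
  have m0 : (0 : ℂ) ∈ ball (0 : ℂ) 1 := mem_ball_self one_pos
  obtain ⟨h, h1, h2⟩ := ((hd.deriv isOpen_ball).div hd h0).isExactOn_ball.with_val_at 0 0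
  have hX : ∀ u ∈ ball (0 : ℂ) 1, X u = X 0 * cexp (h u) := fun u hu => by
    have hder : ∀ z ∈ ball (0 : ℂ) 1, HasDerivAt (fun z => X z * cexp (-h z)) 0 z := fun z hz => by
      refine (((hd.differentiableAt (isOpen_ball.mem_nhds hz)).hasDerivAt).mul
        (h2 z hz).neg.cexp).congr_deriv ?_
      have := h0 z hz
      simp only [Pi.div_apply]; field_simp; ring
    have := isOpen_ball.is_const_of_deriv_eq_zero (convex_ball (0 : ℂ) 1).isPreconnected
      (fun z hz => (hder z hz).differentiableAt.differentiableWithinAt)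
      (fun z hz => (hder z hz).deriv) hu m0
    simp only [h1, neg_zero, Complex.exp_zero, mul_one] at this
    rw [← this, mul_assoc, ← Complex.exp_add]; simp
  have p0 : 0 < ‖X 0‖ := norm_pos_iff.2 (h0 0 m0)
  have pK : 0 < K := p0.trans_le (by simpa using hK 0 m0)
  set L := |Real.log (K / ‖X 0‖)|
  have hre : ∀ u ∈ ball (0 : ℂ) 1, (h u).re ≤ L + 1 / (1 - ‖u‖) := fun u hu => by
    have hu' : 0 < 1 - ‖u‖ := sub_pos.2 (mem_ball_zero_iff.1 hu)
    have := hK u hu
    rw [hX u hu, norm_mul, Complex.norm_exp, ← le_div_iff₀' p0, div_right_comm,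
      ← Real.le_log_iff_exp_le (by positivity), div_eq_mul_one_div (K / _),
      Real.log_mul (by positivity) (by positivity)] at this
    linarith [le_abs_self (Real.log (K / ‖X 0‖)),
      Real.log_le_sub_one_of_pos (show 0 < 1 / (1 - ‖u‖) by positivity)]
  refine ⟨4 * L + 8 + |Real.log ‖X 0‖|, by positivity, fun u hu => ?_⟩
  have hu1 := mem_ball_zero_iff.1 hu
  have hn := norm_nonneg u
  set d := 1 - ‖u‖ with hdd
  have d0 : 0 < d := sub_pos.2 hu1
  have L0 : 0 ≤ L := abs_nonneg _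
  have sub : ball (0 : ℂ) (1 - d / 2) ⊆ ball 0 1 := ball_subset_ball (by linarith)
  have bc := borelCaratheodory_zero (f := h) (M := L + 2 / d) (R := 1 - d / 2) (z := u)
    (by positivity) (fun z hz => (h2 z (sub hz)).differentiableAt.differentiableWithinAt)
    (fun z hz => (hre z (sub hz)).trans (by
      have := mem_ball_zero_iff.1 hz
      rw [add_le_add_iff_left, div_le_div_iff₀ (by linarith) d0]; linarith))
    (by linarith) (mem_ball_zero_iff.2 (by linarith)) h1
  have b2 : ‖h u‖ ≤ (4 * L + 8) / d ^ 2 := by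
    refine bc.trans ?_
    rw [show 1 - d / 2 - ‖u‖ = d / 2 by linarith, div_le_div_iff₀ (by positivity) (by positivity)]
    have e : (L + 2 / d) * d = L * d + 2 := by field_simp
    have : (L + 2 / d) * d * ‖u‖ ≤ L + 2 := by rw [e]; nlinarith [mul_nonneg L0 d0.le]
    nlinarith
  rw [hX u hu, norm_mul, Complex.norm_exp, ← Real.exp_log p0, ← Real.exp_add, Real.exp_log p0]
  refine Real.exp_le_exp.2 ?_
  have b3 : |Real.log ‖X 0‖| ≤ |Real.log ‖X 0‖| / d ^ 2 :=
    le_div_self (abs_nonneg _) (by positivity) (by nlinarith)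
  rw [add_div]
  linarith [neg_abs_le (Real.log ‖X 0‖), neg_abs_le (h u).re, abs_re_le_norm (h u)]

/-- properties of polynomials with nonnegative coefficients -/
structure CP (P : ℂ → ℂ) : Prop where
  d : Differentiable ℂ P
  le : ∀ (z : ℂ) (t : ℝ), ‖z‖ ≤ t → ‖P z‖ ≤ (P t).re
  cj : ∀ z, P (conj z) = conj (P z)

lemma CP.pow (n : ℕ) : CP fun z => z ^ n :=
  ⟨by fun_prop, fun z t h => by
    rw [norm_pow, ← ofReal_pow, ofReal_re]; gcongr, fun z => by simp⟩

lemma CP.comb {P Q : ℂ → ℂ} (h : CP P) (k : CP Q) {a b : ℝ} (ha : 0 ≤ a) (hb : 0 ≤ b) :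
    CP fun z => a * P z + b * Q z :=
  ⟨by have := h.d; have := k.d; fun_prop, fun z t e => by
    refine (norm_add_le _ _).trans ?_
    simp only [norm_mul, norm_real, Real.norm_of_nonneg ha, Real.norm_of_nonneg hb, add_re,
      re_ofReal_mul]
    gcongr
    exacts [h.le z t e, k.le z t e], fun z => by simp [h.cj, k.cj]⟩

lemma reinv (w : ℂ) (a0 : 0 < w.re) (b0 : w.im ^ 2 ≤ (w.re / 2) ^ 2) :
    1 / (3 * w.re ^ 2) ≤ ((w ^ 2)⁻¹).re := by
  rw [inv_re, map_pow, normSq_apply, sq w, mul_re,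
    div_le_div_iff₀ (by positivity) (pow_pos (by nlinarith [sq_nonneg w.im]) 2)]
  nlinarith [sq_nonneg w.im, mul_pos a0 a0]

lemma sect {C : ℝ} (hC : 0 < C) : ∃ B : ℝ, ∀ P, CP P → (∀ a : ℝ, 0 < a → a ≤ 1 / 2 →
    ‖P (6 - a + a / 2 * I)‖ ≤ Real.exp (C / a ^ 2)) → (P (23 / 4 : ℝ)).re ≤ B := by
  refine ⟨Real.exp (2 * (48 * C) + 1), fun P hP h => ?_⟩
  set M := (P (23 / 4 : ℝ)).re
  obtain ⟨η, η0, η1, η2⟩ : ∃ η : ℝ, 0 < η ∧ η < 1 / 4 ∧ (P (7 : ℝ)).re ≤ Real.exp (C / η ^ 2) := by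
    have p := (norm_nonneg _).trans (hP.le 0 7 (by simp))
    refine ⟨min (1 / 8) (C / ((P (7 : ℝ)).re + 1)), by positivity,
      (min_le_left _ _).trans_lt (by norm_num), ?_⟩
    set η := min (1 / 8) (C / ((P (7 : ℝ)).re + 1))
    have e0 : 0 < η := by positivity
    have e1 : η ≤ 1 / 8 := min_le_left _ _
    have e2 : η * ((P (7 : ℝ)).re + 1) ≤ C := (le_div_iff₀ (by positivity)).1 (min_le_right _ _)
    refine le_trans ?_ (Real.add_one_le_exp _)
    have : (P (7 : ℝ)).re ≤ C / η ^ 2 := by rw [le_div_iff₀ (by positivity)]; nlinarith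
    linarith
  let A : ℝ := 4 * (48 * C + 1)
  let F : ℂ → ℂ := fun z => P z * cexp (-((3 * C : ℝ) * ((6 - z) ^ 2)⁻¹) - A * (6 - z))
  let U : Set ℂ := {z | η < 6 - z.re ∧ 6 - z.re < 1 / 2 ∧ |z.im| < (6 - z.re) / 2}
  let V : Set ℂ := {z | η ≤ 6 - z.re ∧ 6 - z.re ≤ 1 / 2 ∧ |z.im| ≤ (6 - z.re) / 2}
  have hU : IsOpen U := by
    refine IsOpen.and ?_ (IsOpen.and ?_ ?_) <;> exact isOpen_lt (by fun_prop) (by fun_prop)
  have hV : closure U ⊆ V := closure_minimal (fun z h => ⟨h.1.le, h.2.1.le, h.2.2.le⟩) (by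
    refine IsClosed.and ?_ (IsClosed.and ?_ ?_) <;> exact isClosed_le (by fun_prop) (by fun_prop))
  have hn : ∀ z ∈ V, ‖z‖ ≤ 7 := fun z hz => by
    have := norm_le_abs_re_add_abs_im z
    rw [abs_of_nonneg (by linarith [hz.2.1])] at this
    linarith [hz.1, hz.2.1, hz.2.2]
  have hne : ∀ z ∈ V, 6 - z ≠ 0 := fun z hz e => by
    have := congrArg re e
    simp at this; linarith [hz.1]
  have hF : ∀ z ∈ V, ‖F z‖ ≤ ‖P z‖ * Real.exp (-(C / (6 - z.re) ^ 2) - A * (6 - z.re)) :=
    fun z hz => by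
      rw [norm_mul, Complex.norm_exp]
      gcongr
      have a0 : 0 < 6 - z.re := η0.trans_le hz.1
      have b0 : z.im ^ 2 ≤ ((6 - z.re) / 2) ^ 2 := sq_le_sq' (by linarith [neg_abs_le z.im, hz.2.2])
        ((le_abs_self _).trans hz.2.2)
      have := reinv (6 - z) (by simpa using a0) (by simpa using b0)
      simp only [sub_re, neg_re, re_ofReal_mul, re_ofNat] at this ⊢
      have e : C / (6 - z.re) ^ 2 = 3 * C * (1 / (3 * (6 - z.re) ^ 2)) := by field_simp
      rw [e]
      gcongr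
  have key := norm_le_of_forall_mem_frontier_norm_le (f := F) (U := U)
    (isBounded_iff_forall_norm_le.2 ⟨7, fun z hz => hn z (hV (subset_closure hz))⟩)
    (DifferentiableOn.diffContOnCl fun z hz => by
      have := hne z (hV hz)
      have := hP.d
      refine DifferentiableAt.differentiableWithinAt ?_
      simp only [F]; fun_prop (disch := simpa))
    (C := max 1 (M * Real.exp (-(A / 2)))) (z := (23 / 4 : ℝ)) (fun z hz => ?_)
    (subset_closure (by simp only [U, mem_setOf_eq, ofReal_re, ofReal_im]; norm_num; linarith))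
  · have M0 : 0 ≤ M := (norm_nonneg _).trans (hP.le 0 _ (by norm_num))
    have e : ‖F (23 / 4 : ℝ)‖ = ‖P (23 / 4 : ℝ)‖ * Real.exp (-(2 * (48 * C) + 1)) := by
      rw [norm_mul, Complex.norm_exp]
      congr 2
      rw [show (6 : ℂ) - (23 / 4 : ℝ) = (1 / 4 : ℝ) by push_cast; ring, ← ofReal_pow, ← ofReal_inv,
        ← ofReal_mul, ← ofReal_mul, ← ofReal_neg, ← ofReal_sub, ofReal_re]
      simp only [A]; ring
    have k2 : M * Real.exp (-(2 * (48 * C) + 1)) ≤ max 1 (M * Real.exp (-(A / 2))) := by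
      refine le_trans ?_ key
      rw [e]; gcongr; exact re_le_norm _
    rcases le_max_iff.1 k2 with k | k
    · rwa [Real.exp_neg, mul_inv_le_iff₀ (Real.exp_pos _), one_mul] at k
    · have : Real.exp (-(A / 2)) < Real.exp (-(2 * (48 * C) + 1)) :=
        Real.exp_lt_exp.2 (by simp only [A]; linarith)
      have : M ≤ 0 := by nlinarith
      exact this.trans (Real.exp_pos _).le
  have hz1 := hV (frontier_subset_closure hz)
  have hz2 : z ∉ U := fun h => (hU.frontier_eq ▸ hz).2 h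
  have a0 : 0 < 6 - z.re := η0.trans_le hz1.1
  have A0 : 0 ≤ A := by positivity
  have fin : ‖P z‖ ≤ Real.exp (C / (6 - z.re) ^ 2) → ‖F z‖ ≤ max 1 (M * Real.exp (-(A / 2))) :=
    fun k => by
      refine (hF z hz1).trans (le_max_of_le_left ?_)
      refine (mul_le_mul_of_nonneg_right k (Real.exp_pos _).le).trans ?_
      rw [← Real.exp_add, Real.exp_le_one_iff]
      nlinarith
  simp only [U, mem_setOf_eq, not_and_or, not_lt] at hz2
  rcases hz2 with k | k | k
  · exact fin (by rw [le_antisymm k hz1.1]; exact (hP.le z 7 (hn z hz1)).trans η2)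
  · have e : 6 - z.re = 1 / 2 := le_antisymm hz1.2.1 k
    refine (hF z hz1).trans (le_max_of_le_right ?_)
    have : ‖z‖ ≤ 23 / 4 := by
      have := norm_le_abs_re_add_abs_im z
      rw [abs_of_nonneg (by linarith)] at this
      linarith [hz1.2.2]
    gcongr
    · exact (norm_nonneg _).trans (hP.le z _ this)
    · exact hP.le z _ this
    · rw [e]; have : 0 ≤ C / (1 / 2) ^ 2 := by positivity
      linarith
  · refine fin ?_
    have := h (6 - z.re) a0 hz1.2.1
    rcases abs_cases z.im with ⟨e, -⟩ | ⟨e, -⟩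
    · convert this using 3
      refine Complex.ext (by simp) ?_
      simp; linarith [hz1.2.2]
    · rw [← norm_conj, ← hP.cj]
      convert this using 3
      refine Complex.ext (by simp) ?_
      simp; linarith [hz1.2.2]

lemma ray {Φ : ℂ → ℂ} (hd : Differentiable ℂ Φ) {C : ℝ}
    (h : ∀ z, ‖Φ z‖ ≤ C * Real.exp (‖z‖ - |z.im|)) {x : ℝ} (hx : 0 < x) : ‖Φ x‖ ≤ C := by
  have hC : 0 ≤ C := by simpa using (norm_nonneg _).trans (h 0)
  have key : ∀ δ : ℝ, 0 < δ → δ < 1 → ‖Φ x‖ ≤ C * Real.exp (Real.sin δ * x) := fun δ d0 d1 => by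
    have hpi := Real.pi_gt_three
    have hs : 0 ≤ Real.sin δ := Real.sin_nonneg_of_nonneg_of_le_pi d0.le (by linarith)
    have hc : 0 ≤ Real.cos δ := Real.cos_nonneg_of_neg_pi_div_two_le_of_le (by linarith) (by linarith)
    let f : ℂ → ℂ := fun w => Φ (cexp w) * cexp (-(Real.sin δ * cexp w))
    have hf : ∀ w, ‖f w‖ ≤ C * Real.exp (Real.exp w.re *
        (1 - |Real.sin w.im| - Real.sin δ * Real.cos w.im)) := fun w => by
      rw [norm_mul, Complex.norm_exp]
      refine (mul_le_mul_of_nonneg_right (h _) (Real.exp_pos _).le).trans_eq ?_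
      rw [mul_assoc, ← Real.exp_add, Complex.norm_exp, exp_im, neg_re, re_ofReal_mul, exp_re,
        abs_mul, abs_of_pos (Real.exp_pos _)]
      congr 2; ring
    have side : ∀ w : ℂ, |Real.sin w.im| = Real.cos δ → Real.cos w.im = Real.sin δ → ‖f w‖ ≤ C :=
      fun w e1 e2 => (hf w).trans (mul_le_of_le_one_right hC (Real.exp_le_one_iff.2
        (mul_nonpos_of_nonneg_of_nonpos (Real.exp_pos _).le (by
          rw [e1, e2]; nlinarith [Real.sin_sq_add_cos_sq δ, Real.cos_le_one δ]))))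
    have := PhragmenLindelof.horizontal_strip (f := f) (a := -(Real.pi / 2 - δ))
      (b := Real.pi / 2 - δ) (C := C) (z := Real.log x)
      (Differentiable.diffContOnCl (by simp only [f]; fun_prop))
      ⟨1, by rw [lt_div_iff₀ (by linarith)]; linarith, 2,
        Asymptotics.IsBigO.of_bound C (Eventually.of_forall fun w => (hf w).trans (by
          rw [Real.norm_of_nonneg (Real.exp_pos _).le, one_mul, mul_comm 2]
          have k1 := Real.exp_le_exp.2 (le_abs_self w.re)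
          have k2 : 1 - |Real.sin w.im| - Real.sin δ * Real.cos w.im ≤ 2 := by
            nlinarith [abs_nonneg (Real.sin w.im), Real.neg_one_le_cos w.im, Real.sin_le_one δ]
          refine mul_le_mul_of_nonneg_left (Real.exp_le_exp.2 ?_) hC
          nlinarith [Real.exp_pos w.re]))⟩
      (fun w hw => side w (by
        rw [hw, Real.sin_neg, abs_neg, Real.sin_pi_div_two_sub, abs_of_nonneg hc])
        (by rw [hw, Real.cos_neg, Real.cos_pi_div_two_sub]))
      (fun w hw => side w (by rw [hw, Real.sin_pi_div_two_sub, abs_of_nonneg hc])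
        (by rw [hw, Real.cos_pi_div_two_sub])) (by simp; linarith) (by simp; linarith)
    simp only [f, ← ofReal_exp, Real.exp_log hx, ← ofReal_mul, ← ofReal_neg, norm_mul, norm_real,
      Real.norm_of_nonneg (Real.exp_pos _).le] at this
    rwa [Real.exp_neg, mul_inv_le_iff₀ (Real.exp_pos _)] at this
  have t : Tendsto (fun δ : ℝ => C * Real.exp (Real.sin δ * x)) (nhdsWithin 0 (Ioi 0)) (nhds C) :=
    tendsto_nhdsWithin_of_tendsto_nhds (Continuous.tendsto' (by fun_prop) _ _ (by simp))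
  refine ge_of_tendsto t ?_
  filter_upwards [Ioo_mem_nhdsGT (zero_lt_one' ℝ)] with δ hδ using key δ hδ.1 hδ.2

lemma const {Φ : ℂ → ℂ} (hd : Differentiable ℂ Φ) {C : ℝ}
    (h : ∀ z, ‖Φ z‖ ≤ C * Real.exp (‖z‖ - |z.im|)) (z w : ℂ) : Φ z = Φ w := by
  have hC : 0 ≤ C := by simpa using (norm_nonneg _).trans (h 0)
  have h1 : ∀ x : ℝ, ‖Φ x‖ ≤ C := fun x => by
    rcases lt_trichotomy x 0 with e | rfl | e
    · simpa using ray (Φ := fun z => Φ (-z)) (by fun_prop) (fun z => by simpa using h (-z))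
        (neg_pos.2 e)
    · simpa using h 0
    · exact ray hd h e
  have h2 : ∀ x : ℝ, ‖Φ (x * I)‖ ≤ C := fun x => by simpa using h (x * I)
  have hB : ∀ l : Filter ℂ, ∃ c < (2 : ℝ), ∃ B, Φ =O[l] fun z => Real.exp (B * ‖z‖ ^ c) :=
    fun l => ⟨1, by norm_num, 1, Asymptotics.IsBigO.of_bound C (Eventually.of_forall fun w =>
      (h _).trans (by
        rw [Real.norm_of_nonneg (Real.exp_pos _).le, Real.rpow_one, one_mul]
        gcongr; linarith [abs_nonneg w.im]))⟩
  refine hd.apply_eq_apply_of_bounded (isBounded_iff_forall_norm_le.2 ⟨C, ?_⟩) z w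
  rintro _ ⟨w, rfl⟩
  rcases le_total 0 w.re with a | a <;> rcases le_total 0 w.im with b | b
  · exact PhragmenLindelof.quadrant_I hd.diffContOnCl (hB _) (fun x _ => h1 x) (fun x _ => h2 x) a b
  · exact PhragmenLindelof.quadrant_IV hd.diffContOnCl (hB _) (fun x _ => h1 x) (fun x _ => h2 x) a b
  · exact PhragmenLindelof.quadrant_II hd.diffContOnCl (hB _) (fun x _ => h1 x) (fun x _ => h2 x) a b
  · exact PhragmenLindelof.quadrant_III hd.diffContOnCl (hB _) (fun x _ => h1 x) (fun x _ => h2 x) a b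

end Pool.Agent.H.MP_cfec29_an
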