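import Pool.Agent.H.MP_cfec29_an.A

set_option autoImplicit false

namespace Pool.Agent.H.MP_cfec29_an

open Complex Filter Set Metric NormedSpace Pool.Agent.H.MP_0f7a95_an
open scoped ComplexConjugate Nat

section
variable {A : Type} [NormedRing A] [NormedAlgebra ℂ A] [CompleteSpace A]

lemma hs' (f : StrongDual ℂ A) (a : A) (z : ℂ) :
    HasSum (fun n => z ^ n / n ! * f (a ^ n)) (f (exp (z • a))) := by
  have := (exp_series_hasSum_exp' (𝕂 := ℂ) (z • a)).mapL f
  have e : (fun n => z ^ n / n ! * f (a ^ n)) = fun n => f (((n ! : ℂ)⁻¹) • (z • a) ^ n) := by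
    ext n
    rw [smul_pow, map_smul, map_smul, smul_eq_mul, smul_eq_mul]; ring
  rw [e]; exact this

lemma esh (f : StrongDual ℂ A) (c : ℂ) (s : A) (z : ℂ) :
    f (exp (z • (algebraMap ℂ A c + s))) = cexp (z * c) * f (exp (z • s)) := by
  let _ : NormedAlgebra ℚ A := NormedAlgebra.restrictScalars ℚ ℂ A
  rw [smul_add, Algebra.smul_def z (algebraMap ℂ A c), ← map_mul,
    NormedSpace.exp_add_of_commute (Algebra.commutes _ _), ← algebraMap_exp_comm,
    ← Algebra.smul_def, map_smul, smul_eq_mul, Complex.exp_eq_exp_ℂ]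

lemma van (s : A) (hs1 : ∀ k, ‖s ^ k‖ ≤ 1) (f : StrongDual ℂ A) (u : ℝ)
    (hu : ∀ n, (f ((algebraMap ℂ A (-6 - I) + s) ^ n)).re < u) (k : ℕ) :
    ‖f (s ^ k)‖ = ‖f 1‖ := by
  set B : ℂ → ℂ := fun z => f (exp (z • s)) with hB
  set H : ℂ → ℂ := fun z => f (exp (z • (algebraMap ℂ A (-6 - I) + s))) with hH
  set a : ℕ → ℂ := fun n => f ((algebraMap ℂ A (-6 - I) + s) ^ n) with ha
  have hHB : ∀ z, H z = cexp (z * (-6 - I)) * B z := esh f _ s
  have hBle : ∀ z, ‖B z‖ ≤ ‖f‖ * Real.exp ‖z‖ := by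
    intro z
    refine (hs' f s z).norm_le_of_bounded ((hexp ‖z‖).mul_left ‖f‖) fun n => ?_
    rw [norm_mul, norm_div, norm_pow, Complex.norm_natCast, mul_comm]
    gcongr
    exact (f.le_opNorm _).trans (mul_le_of_le_one_right (norm_nonneg _) (hs1 n))
  have hG : ∀ z : ℂ, HasSum (fun n => z ^ n / n ! * ((2 * (a n).re : ℝ) : ℂ))
      (H z + conj (H (conj z))) := by
    intro z
    have h1 := hs' f (algebraMap ℂ A (-6 - I) + s) z
    have h2 := (hs' f (algebraMap ℂ A (-6 - I) + s) (conj z)).mapL conjCLE.toContinuousLinearMap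
    have e : (fun n => z ^ n / n ! * ((2 * (a n).re : ℝ) : ℂ)) = fun n => z ^ n / n ! * a n +
        conjCLE.toContinuousLinearMap ((conj z) ^ n / n ! * a n) := by
      ext n
      rw [← Complex.add_conj]
      simp
      ring
    rw [e]; exact h1.add h2
  have hnH : ∀ z, ‖H z‖ ≤ ‖f‖ * Real.exp (‖z‖ - 6 * z.re + z.im) := by
    intro z
    rw [hHB, norm_mul, Complex.norm_exp]
    refine (mul_le_mul_of_nonneg_left (hBle z) (Real.exp_pos _).le).trans_eq ?_
    rw [mul_left_comm, ← Real.exp_add]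
    congr 2
    simp; ring
  have p1 := abs_nonneg u
  have p2 := norm_nonneg f
  have hGle : ∀ z, ‖H z + conj (H (conj z))‖ ≤ (4 * |u| + 2 * ‖f‖) * Real.exp ‖z‖ := by
    intro z
    have h1 := (hG (‖z‖ : ℂ)).mapL reCLM
    have e : (fun n => reCLM ((‖z‖ : ℂ) ^ n / n ! * ((2 * (a n).re : ℝ) : ℂ))) =
        fun n => ‖z‖ ^ n / n ! * (2 * (a n).re) := by
      ext n
      rw [reCLM_apply, ← Complex.ofReal_pow, ← Complex.ofReal_natCast, ← Complex.ofReal_div,
        ← Complex.ofReal_mul, ofReal_re]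
    rw [e] at h1
    have h2 := ((hexp ‖z‖).mul_left (4 * |u|)).sub h1
    refine ((hG z).norm_le_of_bounded h2 fun n => ?_).trans ?_
    · rw [norm_mul, norm_div, norm_pow, Complex.norm_natCast, Complex.norm_real, Real.norm_eq_abs]
      have p : 0 ≤ ‖z‖ ^ n / n ! := by positivity
      have q : |2 * (a n).re| ≤ 4 * |u| - 2 * (a n).re := by
        have := hu n
        have := le_abs_self u
        change (a n).re < u at *
        cases abs_cases (2 * (a n).re) <;> linarith
      nlinarith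
    · rw [reCLM_apply, conj_ofReal, add_re, conj_re]
      have h3 := (abs_le.1 (abs_re_le_norm (H ‖z‖))).1
      have h4 := (hnH ‖z‖).trans (mul_le_mul_of_nonneg_left (Real.exp_le_exp.2
        (show _ ≤ ‖z‖ by simp)) p2)
      linarith
  have hBd : Differentiable ℂ B := fun z =>
    (f.hasFDerivAt.comp_hasDerivAt z (hasDerivAt_exp_smul_const s z)).differentiableAt
  have hHd : Differentiable ℂ H := by rw [funext hHB]; fun_prop
  have hHc : Differentiable ℂ fun z => conj (H (conj z)) := fun z =>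
    (hHd (conj z)).conj_conj |> fun h => by simpa [Function.comp_def] using h
  have hK := pl_zero (K := fun w => cexp (w * (3 / 2 * I)) *
      (H (w * (I / 2)) + conj (H (conj (w * (I / 2))))))
    (Differentiable.mul (by fun_prop) ((hHd.add hHc).comp (f := fun w => w * (I / 2)) (by fun_prop)))
    (D := 4 * |u| + 2 * ‖f‖) fun w => by
      have e1 : ‖cexp (w * (3 / 2 * I))‖ = Real.exp (-(3 / 2 * w.im)) := by
        rw [Complex.norm_exp]; congr 1; simp; ring
      have e2 : ‖w * (I / 2)‖ = ‖w‖ / 2 := by simp; ring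
      have e3 : (w * (I / 2)).re = -w.im / 2 := by simp; ring
      have e4 : (w * (I / 2)).im = w.re / 2 := by simp; ring
      rw [norm_mul, e1]
      rcases le_total 0 w.im with h | h
      · refine (mul_le_mul_of_nonneg_left (hGle _) (Real.exp_pos _).le).trans ?_
        rw [mul_left_comm, ← Real.exp_add, e2, abs_of_nonneg h]
        gcongr
        linarith [norm_nonneg w]
      · have k1 := hnH (w * (I / 2))
        have k2 := hnH (conj (w * (I / 2)))
        rw [norm_conj, conj_re, conj_im] at k2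
        rw [e2, e3, e4] at k1 k2
        have k3 : ‖H (w * (I / 2)) + conj (H (conj (w * (I / 2))))‖ ≤
            2 * ‖f‖ * Real.exp (‖w‖ + 3 * w.im) := by
          refine (norm_add_le _ _).trans ?_
          rw [norm_conj, two_mul, add_mul]
          have := abs_le.1 (abs_re_le_norm w)
          exact add_le_add
            (k1.trans (mul_le_mul_of_nonneg_left (Real.exp_le_exp.2 (by linarith)) p2))
            (k2.trans (mul_le_mul_of_nonneg_left (Real.exp_le_exp.2 (by linarith)) p2))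
        refine (mul_le_mul_of_nonneg_left k3 (Real.exp_pos _).le).trans ?_
        rw [mul_left_comm, ← Real.exp_add, abs_of_nonpos h]
        exact mul_le_mul (by linarith) (Real.exp_le_exp.2 (by linarith)) (Real.exp_pos _).le
          (by positivity)
  have hG0 : ∀ z, ‖H z‖ = ‖H (conj z)‖ := fun z => by
    have := (mul_eq_zero.1 (hK (z * (-2 * I)))).resolve_left (Complex.exp_ne_zero _)
    rw [show z * (-2 * I) * (I / 2) = z by linear_combination (-z) * I_mul_I] at this
    rw [eq_neg_of_add_eq_zero_left this, norm_neg, norm_conj]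
  have hc := const (Φ := fun z => cexp (z * 6) * H z) (by fun_prop) (C := ‖f‖) fun z => by
    have e : ‖cexp (z * 6)‖ = Real.exp (6 * z.re) := by
      rw [Complex.norm_exp]; congr 1; simp; ring
    rw [norm_mul, e]
    rcases le_total 0 z.im with h | h
    · rw [hG0, abs_of_nonneg h]
      refine (mul_le_mul_of_nonneg_left (hnH _) (Real.exp_pos _).le).trans_eq ?_
      rw [mul_left_comm, ← Real.exp_add, norm_conj, conj_re, conj_im]; congr 2; ring
    · rw [abs_of_nonpos h]
      refine (mul_le_mul_of_nonneg_left (hnH _) (Real.exp_pos _).le).trans_eq ?_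
      rw [mul_left_comm, ← Real.exp_add]; congr 2; ring
  have h0 : ∀ k (z : ℂ), f (s ^ k * exp (z • s)) = f 1 * I ^ k * cexp (z * I) := by
    intro k
    induction k with
    | zero =>
      intro z
      have := hc z 0
      simp only [hHB, hB, zero_mul, Complex.exp_zero, one_mul, zero_smul, NormedSpace.exp_zero,
        ← mul_assoc, ← Complex.exp_add] at this
      rw [← this, pow_zero, pow_zero, one_mul, mul_one, mul_right_comm, ← Complex.exp_add,
        show z * 6 + z * (-6 - I) + z * I = 0 by ring, Complex.exp_zero, one_mul]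
    | succ k ih =>
      intro z
      have h1 := f.hasFDerivAt.comp_hasDerivAt z
        ((hasDerivAt_exp_smul_const' s z).const_mul (s ^ k))
      have h2 : (f ∘ fun y : ℂ => s ^ k * exp (y • s)) =
        fun y => f 1 * I ^ k * cexp (y * I) := funext ih
      rw [h2] at h1
      rw [pow_succ, mul_assoc]
      refine (h1.unique (((hasDerivAt_id z).mul_const I).cexp.const_mul _)).trans ?_
      simp only [id]; ring
  have := h0 k 0
  simp only [zero_smul, NormedSpace.exp_zero, mul_one, zero_mul, Complex.exp_zero] at this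
  simp [this]

end

noncomputable abbrev HH := lp (fun _ : ℕ => ℂ) 2

lemma mem2 (u : ℕ → ℂ) : Memℓp u 2 ↔ Summable fun n => ‖u n‖ ^ 2 := by
  rw [memℓp_gen_iff (by norm_num)]; simp

lemma n2 (x : HH) : HasSum (fun n => ‖x n‖ ^ 2) (‖x‖ ^ 2) := by
  simpa using lp.hasSum_norm (p := 2) (by norm_num) x

def shf (x : ℕ → ℂ) : ℕ → ℂ
  | 0 => 0
  | n + 1 => x n

noncomputable def S0 : HH →ₗᵢ[ℂ] HH where
  toFun x := ⟨shf x, (mem2 _).2 ((summable_nat_add_iff 1).1 (n2 x).summable)⟩
  map_add' x y := lp.ext (funext fun n => by cases n <;> simp [shf])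
  map_smul' c x := lp.ext (funext fun n => by cases n <;> simp [shf])
  norm_map' x := by
    rw [← sq_eq_sq₀ (norm_nonneg _) (norm_nonneg _)]
    refine (n2 _).unique ((hasSum_nat_add_iff' 1).1 ?_)
    simpa [shf] using n2 x

noncomputable def S : HH →L[ℂ] HH := S0.toContinuousLinearMap

lemma S_app (f : HH) : (S f : ℕ → ℂ) = shf f := rfl

noncomputable def e (k : ℕ) : HH := lp.single 2 k 1

lemma S_e (k : ℕ) : (S ^ k) (e 0) = e k := by
  induction k with
  | zero => rfl
  | succ k ih =>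
    rw [pow_succ', ContinuousLinearMap.mul_apply, ih]
    refine lp.ext (funext fun n => ?_)
    rw [S_app]
    cases n <;> simp [shf, e, lp.single_apply, Pi.single_apply]

noncomputable def T : HH →L[ℂ] HH := algebraMap ℂ _ (-6 - I) + -S

theorem cyc : Dense (convexHull ℝ (range fun n : ℕ => (T ^ n) (e 0))) := fun y => by
  by_contra hy
  obtain ⟨g, u, hg1, hg2⟩ := RCLike.geometric_hahn_banach_closed_point (𝕜 := ℂ)
    (convex_convexHull ℝ _).closure isClosed_closure hy
  have hg3 : ∀ n, (g ((T ^ n) (e 0))).re < u := fun n =>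
    hg1 _ (subset_closure (subset_convexHull ℝ _ ⟨n, rfl⟩))
  have hs : ∀ k, ‖(-S) ^ k‖ ≤ 1 := fun k => by
    induction k with
    | zero => exact ContinuousLinearMap.norm_id_le
    | succ k ih =>
      rw [pow_succ]
      exact (norm_mul_le _ _).trans (mul_le_one₀ ih (norm_nonneg _)
        ((norm_neg _).trans_le S0.norm_toContinuousLinearMap_le))
  have hv := van (-S) hs (g.comp (ContinuousLinearMap.apply ℂ HH (e 0))) u hg3
  have h1 : ∀ k, ‖((InnerProductSpace.toDual ℂ HH).symm g) k‖ = ‖g (e 0)‖ := fun k => by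
    have := hv k
    rw [neg_pow, show (-1 : HH →L[ℂ] HH) = (-1 : ℂ) • 1 by simp, smul_pow, one_pow, smul_mul_assoc,
      one_mul, map_smul, norm_smul] at this
    simp only [norm_pow, norm_neg, norm_one, one_pow, one_mul, ContinuousLinearMap.comp_apply,
      ContinuousLinearMap.apply_apply, S_e, ContinuousLinearMap.one_apply] at this
    rw [← this, ← InnerProductSpace.toDual_symm_apply (y := g), e, lp.inner_single_right]
    simp
  have h2 := (n2 ((InnerProductSpace.toDual ℂ HH).symm g)).summable.tendsto_atTop_zero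
  simp only [h1, tendsto_const_nhds_iff] at h2
  have h3 : (InnerProductSpace.toDual ℂ HH).symm g = 0 :=
    lp.ext (funext fun k => by simpa using (h1 k).trans (pow_eq_zero_iff two_ne_zero |>.1 h2))
  have h4 : g = 0 := by simpa using h3
  have := hg3 0
  rw [h4] at this hg2
  simp at this hg2
  linarith

noncomputable def PS (p : HH) (z : ℂ) : ℂ := ∑' n, p n * z ^ n

lemma bd (p : HH) {z : ℂ} {r : ℝ} (h : ‖z‖ ≤ r) (n : ℕ) : ‖p n * z ^ n‖ ≤ ‖p‖ * r ^ n := by
  rw [norm_mul, norm_pow]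
  gcongr
  exact lp.norm_apply_le_norm (by norm_num) p n

lemma sm (p : HH) {z : ℂ} (h : ‖z‖ < 1) : Summable fun n => p n * z ^ n :=
  Summable.of_norm_bounded ((summable_geometric_of_lt_one (norm_nonneg z) h).mul_left ‖p‖)
    (bd p le_rfl)

lemma PS_le (p : HH) {z : ℂ} (h : ‖z‖ < 1) : ‖PS p z‖ ≤ ‖p‖ / (1 - ‖z‖) :=
  tsum_of_norm_bounded ((hasSum_geometric_of_lt_one (norm_nonneg z) h).mul_left ‖p‖) (bd p le_rfl)

lemma PS_d (p : HH) : DifferentiableOn ℂ (PS p) (ball 0 1) := fun z hz => by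
  obtain ⟨r, h1, h2⟩ := exists_between (mem_ball_zero_iff.1 hz)
  exact ((differentiableOn_tsum_of_summable_norm (U := ball 0 r) (F := fun n z => p n * z ^ n)
    ((summable_geometric_of_lt_one ((norm_nonneg z).trans h1.le) h2).mul_left ‖p‖)
    (fun _ => by fun_prop) isOpen_ball fun n w hw => bd p (mem_ball_zero_iff.1 hw).le n
    ).differentiableAt (isOpen_ball.mem_nhds (mem_ball_zero_iff.2 h1))).differentiableWithinAt

lemma PS_lin (a b : ℂ) (p q : HH) {z : ℂ} (h : ‖z‖ < 1) :
    PS (a • p + b • q) z = a * PS p z + b * PS q z := by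
  rw [PS, PS, PS, ← tsum_mul_left, ← tsum_mul_left,
    ← ((sm p h).mul_left a).tsum_add ((sm q h).mul_left b)]
  exact tsum_congr fun n => by simp; ring

lemma PS_S (f : HH) {z : ℂ} (hz : ‖z‖ < 1) : PS (S f) z = z * PS f z := by
  rw [PS, (sm (S f) hz).tsum_eq_zero_add, PS, ← tsum_mul_left]
  simp only [S_app, shf, zero_mul, zero_add]
  exact tsum_congr fun n => by ring

lemma PS_e (z : ℂ) : PS (e 0) z = 1 := by
  rw [PS, tsum_eq_single 0 fun n hn => by simp [e, lp.single_apply, hn]]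
  simp [e]

lemma PS_pow (c : ℂ) (f : HH) {z : ℂ} (hz : ‖z‖ < 1) (n : ℕ) :
    PS (((algebraMap ℂ _ c + S) ^ n) f) z = (c + z) ^ n * PS f z := by
  induction n with
  | zero => simp
  | succ n ih =>
    have := PS_lin c 1 (((algebraMap ℂ _ c + S) ^ n) f) (S (((algebraMap ℂ _ c + S) ^ n) f)) hz
    rw [one_smul, PS_S _ hz, ih] at this
    rw [pow_succ', ContinuousLinearMap.mul_apply, ContinuousLinearMap.add_apply,
      ContinuousLinearMap.algebraMap_apply, this]
    ring

theorem ncyc (x : HH) : ¬ Dense (convexHull ℝ (range fun n : ℕ => ((-T) ^ n) x)) := fun hd => by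
  have hT : -T = algebraMap ℂ _ (6 + I) + S := by
    rw [T, neg_add, neg_neg, ← map_neg]; congr 2; ring
  have h1 : convexHull ℝ (range fun n : ℕ => ((-T) ^ n) x) ⊆
      {v | ∃ P, CP P ∧ ∀ u, ‖u‖ < 1 → PS v u = P (6 + I + u) * PS x u} := by
    refine convexHull_min ?_ ?_
    · rintro _ ⟨n, rfl⟩
      exact ⟨_, CP.pow n, fun u hu => by rw [hT]; exact PS_pow _ x hu n⟩
    · rintro v ⟨P, hP, e1⟩ w ⟨Q, hQ, e2⟩ a b ha hb -
      refine ⟨_, hP.comb hQ ha hb, fun u hu => ?_⟩
      rw [show a • v + b • w = (a : ℂ) • v + (b : ℂ) • w from rfl, PS_lin _ _ _ _ hu, e1 u hu,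
        e2 u hu]
      ring
  have h2 : ∀ (y : HH) (ε : ℝ), 0 < ε → ∃ P, CP P ∧ ∀ u, ‖u‖ < 1 →
      ‖P (6 + I + u) * PS x u - PS y u‖ ≤ ε / (1 - ‖u‖) := fun y ε hε => by
    obtain ⟨v, hv, k⟩ := hd.exists_dist_lt y hε
    obtain ⟨P, hP, e1⟩ := h1 hv
    refine ⟨P, hP, fun u hu => ?_⟩
    have := PS_le ((1 : ℂ) • v + (-1 : ℂ) • y) hu
    rw [PS_lin _ _ _ _ hu, e1 u hu, one_mul, neg_one_mul, one_smul, neg_one_smul,
      ← sub_eq_add_neg, ← sub_eq_add_neg, ← dist_eq_norm v, dist_comm] at this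
    exact this.trans (by have := sub_pos.2 hu; gcongr)
  have h3 : ∀ u ∈ ball (0 : ℂ) 1, PS x u ≠ 0 := fun u hu e0 => by
    have hu' := mem_ball_zero_iff.1 hu
    have := sub_pos.2 hu'
    obtain ⟨P, -, k⟩ := h2 (e 0) ((1 - ‖u‖) / 2) (by positivity)
    have k' := k u hu'
    rw [e0, PS_e, div_right_comm, div_self this.ne'] at k'
    norm_num at k'
  obtain ⟨C, C0, hC⟩ := lowb (PS_d x) h3 fun u hu => PS_le x (mem_ball_zero_iff.1 hu)
  obtain ⟨B, hB⟩ := sect (C := 36 * (C + 2)) (by positivity)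
  obtain ⟨n, hn⟩ := pow_unbounded_of_one_lt (B * ‖PS x (-1 / 2)‖ + 2)
    (show 1 < ‖I + -1 / 2‖ by
      refine lt_of_pow_lt_pow_left₀ 2 (norm_nonneg _) ?_
      rw [Complex.sq_norm, normSq_apply]; norm_num)
  obtain ⟨P, hP, k⟩ := h2 (((algebraMap ℂ _ I + S) ^ n) (e 0)) 1 one_pos
  have k2 : ∀ u, ‖u‖ < 1 → ‖P (6 + I + u) * PS x u - (I + u) ^ n‖ ≤ 1 / (1 - ‖u‖) :=
    fun u hu => by simpa only [PS_pow _ _ hu, PS_e, mul_one] using k u hu
  have h4 := hB P hP fun a a0 a1 => by
    set u : ℂ := -a + (a / 2 - 1) * I with hu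
    have n1 : ‖u‖ ≤ 1 - a / 6 := by
      refine le_of_sq_le_sq ?_ (by linarith)
      rw [Complex.sq_norm, normSq_apply]; simp [hu]; nlinarith
    have n2 : ‖I + u‖ ≤ 1 := by
      refine le_of_sq_le_sq ?_ (by linarith)
      rw [Complex.sq_norm, normSq_apply]; simp [hu]; nlinarith
    have u1 : ‖u‖ < 1 := by linarith
    have d0 := sub_pos.2 u1
    have k3 := k2 u u1
    have k4 := hC u (mem_ball_zero_iff.2 u1)
    rw [show 6 + I + u = 6 - a + a / 2 * I by rw [hu]; ring] at k3
    have k5 := norm_le_norm_sub_add (P (6 - a + a / 2 * I) * PS x u) ((I + u) ^ n)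
    rw [norm_mul, norm_pow] at k5
    have k6 := pow_le_one₀ (n := n) (norm_nonneg _) n2
    have k7 : 1 / (1 - ‖u‖) ≤ 6 / a := by rw [div_le_div_iff₀ d0 a0]; linarith
    have k8 : C / (1 - ‖u‖) ^ 2 ≤ 36 * C / a ^ 2 := by
      rw [div_le_div_iff₀ (by positivity) (by positivity)]
      have : a ^ 2 ≤ 36 * (1 - ‖u‖) ^ 2 := by nlinarith
      nlinarith
    have k9 : 6 / a + 1 ≤ Real.exp (72 / a ^ 2) := by
      refine le_trans ?_ (Real.add_one_le_exp _)
      rw [add_le_add_iff_right, div_le_div_iff₀ a0 (by positivity)]; nlinarith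
    have k10 : ‖P (6 - a + a / 2 * I)‖ * Real.exp (-(36 * C / a ^ 2)) ≤ Real.exp (72 / a ^ 2) := by
      refine le_trans ?_ (le_trans (by linarith : ‖P (6 - a + a / 2 * I)‖ * ‖PS x u‖ ≤ _) k9)
      gcongr
      exact (Real.exp_le_exp.2 (by linarith)).trans k4
    rw [Real.exp_neg, mul_inv_le_iff₀ (Real.exp_pos _), ← Real.exp_add] at k10
    exact k10.trans_eq (by congr 1; ring)
  have u1 : ‖(-1 / 2 : ℂ)‖ = 1 / 2 := by norm_num
  have k3 := k2 (-1 / 2) (by rw [u1]; norm_num)
  have k4 := (hP.le (6 + I + -1 / 2) (23 / 4) (by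
    refine le_of_sq_le_sq ?_ (by norm_num)
    rw [Complex.sq_norm, normSq_apply]; norm_num)).trans h4
  have k5 := norm_le_norm_sub_add ((I + -1 / 2) ^ n) (P (6 + I + -1 / 2) * PS x (-1 / 2))
  rw [norm_sub_rev, norm_mul, norm_pow] at k5
  rw [u1] at k3
  nlinarith [norm_nonneg (PS x (-1 / 2))]

end Pool.Agent.H.MP_cfec29_an
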